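import Pool.Agent.H365PP.Final

set_option autoImplicit false

namespace Pool.Agent.Results.MP_aa2cc0_co.TwoPaths

open Finset

/-- `P` is in general position: no three points on a line. -/
def GeneralPosition (P : Finset (ℝ × ℝ)) : Prop :=
  ∀ a ∈ P, ∀ b ∈ P, ∀ c ∈ P, a ≠ b → b ≠ c → a ≠ c → ¬ Collinear ℝ ({a, b, c} : Set (ℝ × ℝ))

/-- A triple `(a,b,c)` is a 2-path on `P` (with edges `ab` and `bc`): three distinct points of `P`. -/
def IsTwoPath (P : Finset (ℝ × ℝ)) (t : (ℝ × ℝ) × (ℝ × ℝ) × (ℝ × ℝ)) : Prop :=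
  t.1 ∈ P ∧ t.2.1 ∈ P ∧ t.2.2 ∈ P ∧ t.1 ≠ t.2.1 ∧ t.2.1 ≠ t.2.2 ∧ t.1 ≠ t.2.2

/-- The vertices of a 2-path. -/
def verts (t : (ℝ × ℝ) × (ℝ × ℝ) × (ℝ × ℝ)) : Set (ℝ × ℝ) := {t.1, t.2.1, t.2.2}

/-- Some edge of the 2-path `s` meets some edge of the 2-path `t`. -/
def Cross (s t : (ℝ × ℝ) × (ℝ × ℝ) × (ℝ × ℝ)) : Prop :=
  ((segment ℝ s.1 s.2.1 ∪ segment ℝ s.2.1 s.2.2) ∩
    (segment ℝ t.1 t.2.1 ∪ segment ℝ t.2.1 t.2.2)).Nonempty

/-- There is an absolute constant `c > 0` such that every set of `n ≥ 3` points in the plane, no three on a line,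
admits a crossing family of 2-paths with at least `c n` members. -/
theorem result : ∃ c : ℝ, 0 < c ∧ ∀ n : ℕ, 3 ≤ n → ∀ P : Finset (ℝ × ℝ), P.card = n →
    GeneralPosition P →
    ∃ F : Finset ((ℝ × ℝ) × (ℝ × ℝ) × (ℝ × ℝ)), (∀ t ∈ F, IsTwoPath P t) ∧
      (∀ s ∈ F, ∀ t ∈ F, s ≠ t → Disjoint (verts s) (verts t) ∧ Cross s t) ∧
      c * n ≤ F.card := by
  classical
  obtain ⟨c, hc, h⟩ := Pool.Agent.H365PP.q1
  refine ⟨min c (1 / 5), by positivity, ?_⟩
  intro n hn P hP hG
  obtain ⟨k, a, b, hk, ha, hb, hne, hab⟩ := h n (by omega) P hP hG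
  obtain ⟨m, hm⟩ : ∃ m, m = min k (n / 3) := ⟨_, rfl⟩
  have hmk : m ≤ k := by omega
  have hm3 : 3 * m ≤ n := by omega
  set a' : Fin m → ℝ × ℝ := fun i => a (Fin.castLE hmk i) with ha'
  set b' : Fin m → ℝ × ℝ := fun i => b (Fin.castLE hmk i) with hb'
  set U : Finset (ℝ × ℝ) := univ.image a' ∪ univ.image b' with hU
  have hUc : U.card ≤ 2 * m := by
    refine le_trans (card_union_le _ _) ?_
    have h1 : (univ.image a').card ≤ m := by
      simpa using (card_image_le (s := (univ : Finset (Fin m))) (f := a'))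
    have h2 : (univ.image b').card ≤ m := by
      simpa using (card_image_le (s := (univ : Finset (Fin m))) (f := b'))
    omega
  have hrest : m ≤ (P \ U).card := by
    have := le_card_sdiff U P
    omega
  obtain ⟨W, hW, hWc⟩ := exists_subset_card_eq hrest
  obtain ⟨w, hw, hwi⟩ : ∃ w : Fin m → ℝ × ℝ, (∀ i, w i ∈ W) ∧ Function.Injective w := by
    refine ⟨fun i => (W.equivFin.symm (Fin.cast hWc.symm i)).1, fun i => (W.equivFin.symm _).2, ?_⟩
    intro i j hij
    have := W.equivFin.symm.injective (Subtype.ext hij)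
    simpa using this
  have hwP : ∀ i, w i ∈ P := fun i => (mem_sdiff.1 (hW (hw i))).1
  have hwa : ∀ i j, w i ≠ a' j := by
    intro i j h
    apply (mem_sdiff.1 (hW (hw i))).2
    rw [h, hU]
    exact mem_union_left _ (mem_image_of_mem _ (mem_univ j))
  have hwb : ∀ i j, w i ≠ b' j := by
    intro i j h
    apply (mem_sdiff.1 (hW (hw i))).2
    rw [h, hU]
    exact mem_union_right _ (mem_image_of_mem _ (mem_univ j))
  have hne' : ∀ i j, a' i ≠ b' j := fun i j => hne _ _
  have hab' : ∀ i j, i ≠ j → a' i ≠ a' j ∧ b' i ≠ b' j ∧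
      (openSegment ℝ (a' i) (b' i) ∩ openSegment ℝ (a' j) (b' j)).Nonempty := by
    intro i j hij
    exact hab _ _ (fun h => hij (by simpa [Fin.ext_iff] using h))
  refine ⟨univ.image (fun i : Fin m => (a' i, b' i, w i)), ?_, ?_, ?_⟩
  · intro t ht
    obtain ⟨i, _, rfl⟩ := mem_image.1 ht
    exact ⟨ha _, hb _, hwP i, hne' i i, (hwb i i).symm, (hwa i i).symm⟩
  · intro s hs t ht hst
    obtain ⟨i, _, rfl⟩ := mem_image.1 hs
    obtain ⟨j, _, rfl⟩ := mem_image.1 ht
    have hij : i ≠ j := fun h => hst (by rw [h])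
    obtain ⟨g1, g2, z, hz1, hz2⟩ := hab' i j hij
    refine ⟨?_, z, Or.inl (openSegment_subset_segment _ _ _ hz1),
      Or.inl (openSegment_subset_segment _ _ _ hz2)⟩
    have g3 : w i ≠ w j := fun h => hij (hwi h)
    rw [Set.disjoint_left]
    intro x hx hx'
    simp only [verts, Set.mem_insert_iff, Set.mem_singleton_iff] at hx hx'
    rcases hx with rfl | rfl | rfl
    · rcases hx' with h | h | h
      · exact g1 h
      · exact hne' i j h
      · exact hwa j i h.symm
    · rcases hx' with h | h | h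
      · exact hne' j i h.symm
      · exact g2 h
      · exact hwb j i h.symm
    · rcases hx' with h | h | h
      · exact hwa i j h
      · exact hwb i j h
      · exact g3 h
  · rw [card_image_of_injective]
    · simp only [card_univ, Fintype.card_fin]
      rcases Nat.le_total k (n / 3) with h1 | h1
      · have h2 : m = k := by omega
        rw [h2]
        refine le_trans ?_ hk
        exact mul_le_mul_of_nonneg_right (min_le_left _ _) (by positivity)
      · have h2 : m = n / 3 := by omega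
        have h3 : (n : ℝ) ≤ 5 * (m : ℝ) := by
          have : n ≤ 5 * m := by omega
          exact_mod_cast this
        have h4 : min c (1 / 5) * (n : ℝ) ≤ 1 / 5 * (n : ℝ) :=
          mul_le_mul_of_nonneg_right (min_le_right _ _) (by positivity)
        linarith
    · intro i j hij
      by_contra hne''
      exact (hab' i j hne'').1 (Prod.ext_iff.1 hij).1

end Pool.Agent.Results.MP_aa2cc0_co.TwoPaths
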